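import Pool.Agent.Helper20.FD.Main

/-!
# F-dlt algebraically integrable foliations are induced by morphisms

The question: let `X` be a `ℚ`-factorial projective variety, `F` an algebraically integrable
foliation on `X` and `Δ ≥ 0` a `ℚ`-divisor with `(X, Δ)` klt and `(F, Δ)` F-dlt. Is `F` induced by a
morphism? The answer is yes.

All varieties are normal varieties over `ℂ` in the sense of Chevalley: `X : Variety K` is given by
the coordinate rings `X.B i`, subalgebras of the function field `K`, of the charts of an affine open
cover. An F-dlt pair has by definition a proper birational morphism `X' → X` and a morphism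
`X' → Y` which induces the foliation on `X'`, such that `a (E, F, Δ) > - ε (E)` for all prime
divisors `E` on `X'` which are exceptional over `X`. This is all that is used.
-/

set_option autoImplicit false

namespace Pool.Agent.Results.MP_eb6682_ag.FdltMorphism

open Pool.Agent.H436R3.Fol Pool.Agent.H436R3.Can Pool.Agent.Helper20.FD

/-- Let `X` be a `ℚ`-factorial normal variety, `F` a foliation on `X` and `Δ` an effective
`ℚ`-divisor. Let `X' → X` be a proper birational morphism from a normal variety and `X' → Y` a
dominant morphism which induces the foliation. If `K_F + Δ` is `ℚ`-Cartier and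
`a (E, F, Δ) > - ε (E)` for all prime divisors `E` on `X'` which are exceptional over `X`, the
rational map from `X` to `Y`, which induces `F`, is a morphism. -/
theorem result {K L : Type} [Field K] [Algebra ℂ K] [Field L] [Algebra ℂ L]
    (X X' : Variety K) (Y : Variety L) (ι : L →ₐ[ℂ] K) {r : ℕ} (F : Foliation K r)
    (Δ : EffQDiv X) (hX : IsQFactorial X) (hπ : IsProperBirational X' X)
    (hf : IsMorphismTo X' Y ι) (hF : Induces ι F) (hΔ : DiscrepanciesGT X X' F Δ) :
    IsMorphismTo X Y ι :=
  main hX hπ hf hF hΔ

end Pool.Agent.Results.MP_eb6682_ag.FdltMorphism
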